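import Pool.Agent.Helper76.TC.Goals

set_option autoImplicit false

/-!
# Project TC (MP_ccd65d_gt): packet LP
-/

namespace Pool.Agent.Helper79.TC.LP

open Pool.Agent.Helper76.TC

theorem t : S_LP := by
  intro A X _ hT
  refine ⟨?_, fun x y => (hT x y).joined⟩
  rw [locallyPathConnectedSpace_iff_pathComponentIn_mem_nhds]
  intro x u hu hxu
  obtain ⟨r, hr, hball⟩ := Metric.isOpen_iff.1 hu x hxu
  have hA : 0 < |A| + 1 := by positivity
  refine Metric.mem_nhds_iff.2 ⟨r / (|A| + 1), by positivity, ?_⟩
  intro y hy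
  rw [Metric.mem_ball, dist_comm, lt_div_iff₀ hA] at hy
  have hsub : Metric.closedBall x (A * dist x y) ⊆ u := by
    refine (Metric.closedBall_subset_ball ?_).trans hball
    have h0 : 0 ≤ dist x y := dist_nonneg
    have h1 : A * dist x y ≤ |A| * dist x y := mul_le_mul_of_nonneg_right (le_abs_self A) h0
    nlinarith
  exact (hT x y).mono hsub

end Pool.Agent.Helper79.TC.LP
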